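import Pool.Agent.V1199.CcsSuper
import Pool.Agent.V1199.WeakK

open Set

namespace Pool.Agent.Results.MP_c89e4d_an.CcsDeltaSuperDelta

/-- `S` is a slice of the closed unit ball of `X`. -/
def IsSlice (𝕜 : Type*) [RCLike 𝕜] {X : Type*} [NormedAddCommGroup X] [NormedSpace 𝕜 X]
    (S : Set X) : Prop :=
  ∃ f : StrongDual 𝕜 X, ‖f‖ = 1 ∧ ∃ α : ℝ, 0 < α ∧
    S = {z : X | ‖z‖ ≤ 1 ∧ 1 - α < RCLike.re (f z)}

/-- `C` is a convex combination of slices of the closed unit ball of `X`. -/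
def IsCcs (𝕜 : Type*) [RCLike 𝕜] {X : Type*} [NormedAddCommGroup X] [NormedSpace 𝕜 X]
    (C : Set X) : Prop :=
  ∃ n : ℕ, 1 ≤ n ∧ ∃ (S : Fin n → Set X) (c : Fin n → ℝ),
    (∀ i, IsSlice 𝕜 (S i)) ∧ (∀ i, 0 < c i) ∧ ∑ i, c i = 1 ∧
    C = {w : X | ∃ z : Fin n → X, (∀ i, z i ∈ S i) ∧ w = ∑ i, ((c i : ℝ) : 𝕜) • z i}

/-- `x` is a ccs Delta-point of `X`. -/
def IsCcsDelta (𝕜 : Type*) [RCLike 𝕜] {X : Type*} [NormedAddCommGroup X] [NormedSpace 𝕜 X]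
    (x : X) : Prop :=
  ‖x‖ = 1 ∧ ∀ C : Set X, IsCcs 𝕜 C → x ∈ C → sSup ((fun y => ‖x - y‖) '' C) = 2

/-- `W` is a relatively weakly open subset of the closed unit ball of `X`. -/
def RelWeaklyOpen (𝕜 : Type*) [RCLike 𝕜] {X : Type*} [NormedAddCommGroup X] [NormedSpace 𝕜 X]
    (W : Set X) : Prop :=
  ∃ U : Set (WeakSpace 𝕜 X), IsOpen U ∧ W = {y : X | ‖y‖ ≤ 1 ∧ toWeakSpace 𝕜 X y ∈ U}

/-- `x` is a super Delta-point of `X`. -/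
def IsSuperDelta (𝕜 : Type*) [RCLike 𝕜] {X : Type*} [NormedAddCommGroup X] [NormedSpace 𝕜 X]
    (x : X) : Prop :=
  ‖x‖ = 1 ∧ ∀ W : Set X, RelWeaklyOpen 𝕜 W → x ∈ W → sSup ((fun y => ‖x - y‖) '' W) = 2

theorem isSlice_of {𝕜 : Type*} [RCLike 𝕜] {X : Type*} [NormedAddCommGroup X] [NormedSpace 𝕜 X]
    {x : X} (hx : ‖x‖ = 1) (g : StrongDual 𝕜 X) (t : ℝ) (ht : t < RCLike.re (g x)) :
    IsSlice 𝕜 {z : X | ‖z‖ ≤ 1 ∧ t < RCLike.re (g z)} := by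
  by_cases hg0 : g = 0
  · have hne : x ≠ 0 := by
      intro h
      rw [h, norm_zero] at hx
      exact zero_ne_one hx
    obtain ⟨f0, hf0, -⟩ := exists_dual_vector 𝕜 x (norm_ne_zero_iff.mpr hne)
    have ht0 : t < 0 := by
      rw [hg0, _root_.zero_apply, map_zero] at ht
      exact ht
    refine ⟨f0, hf0, 3, by norm_num, ?_⟩
    ext z
    constructor
    · rintro ⟨h1, -⟩
      refine ⟨h1, ?_⟩
      have h2 : |RCLike.re (f0 z)| ≤ 1 := by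
        calc |RCLike.re (f0 z)| ≤ ‖f0 z‖ := RCLike.abs_re_le_norm _
          _ ≤ ‖f0‖ * ‖z‖ := f0.le_opNorm _
          _ ≤ 1 := by rw [hf0, one_mul]; exact h1
      have := (abs_le.mp h2).1
      linarith
    · rintro ⟨h1, -⟩
      refine ⟨h1, ?_⟩
      rw [hg0, _root_.zero_apply, map_zero]
      exact ht0
  · have hn : 0 < ‖g‖ := norm_pos_iff.mpr hg0
    have hxg : RCLike.re (g x) ≤ ‖g‖ := by
      calc RCLike.re (g x) ≤ ‖g x‖ := RCLike.re_le_norm _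
        _ ≤ ‖g‖ * ‖x‖ := g.le_opNorm _
        _ = ‖g‖ := by rw [hx, mul_one]
    have hfz : ∀ z : X, RCLike.re ((((‖g‖⁻¹ : ℝ) : 𝕜) • g) z) = ‖g‖⁻¹ * RCLike.re (g z) := by
      intro z
      rw [_root_.smul_apply, smul_eq_mul, RCLike.re_ofReal_mul]
    refine ⟨((‖g‖⁻¹ : ℝ) : 𝕜) • g, ?_, 1 - ‖g‖⁻¹ * t, ?_, ?_⟩
    · rw [norm_smul, RCLike.norm_ofReal, abs_of_pos (inv_pos.mpr hn), inv_mul_cancel₀ hn.ne']
    · have : ‖g‖⁻¹ * t < ‖g‖⁻¹ * ‖g‖ := mul_lt_mul_of_pos_left (ht.trans_le hxg) (inv_pos.mpr hn)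
      rw [inv_mul_cancel₀ hn.ne'] at this
      linarith
    · ext z
      constructor
      · rintro ⟨h1, h2⟩
        refine ⟨h1, ?_⟩
        rw [hfz]
        have := mul_lt_mul_of_pos_left h2 (inv_pos.mpr hn)
        linarith
      · rintro ⟨h1, h2⟩
        refine ⟨h1, ?_⟩
        rw [hfz] at h2
        have h3 : ‖g‖⁻¹ * t < ‖g‖⁻¹ * RCLike.re (g z) := by linarith
        exact lt_of_mul_lt_mul_left h3 (inv_pos.mpr hn).le

/-- Every ccs Delta-point of a Banach space is a super Delta-point. -/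
theorem result (𝕜 : Type*) [RCLike 𝕜] (X : Type*) [NormedAddCommGroup X] [NormedSpace 𝕜 X]
    [CompleteSpace X] (x : X) (h : IsCcsDelta 𝕜 x) : IsSuperDelta 𝕜 x := by
  refine ⟨h.1, ?_⟩
  rintro W ⟨U, hU, rfl⟩ hxW
  have hx := h.1
  have hbdd : BddAbove ((fun y => ‖x - y‖) '' {y : X | ‖y‖ ≤ 1 ∧ toWeakSpace 𝕜 X y ∈ U}) := by
    refine ⟨2, ?_⟩
    rintro _ ⟨y, hy, rfl⟩
    calc ‖x - y‖ ≤ ‖x‖ + ‖y‖ := norm_sub_le _ _
      _ ≤ 2 := by rw [hx]; linarith [hy.1]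
  apply le_antisymm
  · apply csSup_le
    · exact ⟨_, ⟨_, hxW, rfl⟩⟩
    · rintro _ ⟨y, hy, rfl⟩
      calc ‖x - y‖ ≤ ‖x‖ + ‖y‖ := norm_sub_le _ _
        _ ≤ 2 := by rw [hx]; linarith [hy.1]
  · apply le_of_forall_pos_lt_add
    intro θ hθ
    obtain ⟨F, ε, hε, hF⟩ := Pool.Agent.V1199.weakK_basic hU hxW.2
    obtain ⟨y, hy1, hyF, hyx⟩ := Pool.Agent.V1199.ccs_super_core (𝕜 := 𝕜) x hx (by
      intro m hm g t hgt θ' hθ'
      have hm' : (0 : ℝ) < m := by exact_mod_cast hm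
      have hsum1 : ∑ _i : Fin m, ((m : ℝ)⁻¹) = 1 := by
        rw [Finset.sum_const, Finset.card_univ, Fintype.card_fin, nsmul_eq_mul,
          mul_inv_cancel₀ hm'.ne']
      let C : Set X := {w : X | ∃ z : Fin m → X,
          (∀ i, z i ∈ {z : X | ‖z‖ ≤ 1 ∧ t i < RCLike.re (g i z)}) ∧
          w = ∑ i, (((m : ℝ)⁻¹ : ℝ) : 𝕜) • z i}
      have hCc : IsCcs 𝕜 C :=
        ⟨m, hm, fun i => {z : X | ‖z‖ ≤ 1 ∧ t i < RCLike.re (g i z)}, fun _ => (m : ℝ)⁻¹,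
          fun i => isSlice_of hx (g i) (t i) (hgt i), fun _ => inv_pos.mpr hm', hsum1, rfl⟩
      have hxC : x ∈ C := ⟨fun _ => x, fun i => ⟨hx.le, hgt i⟩, by
          rw [← Finset.sum_smul, ← RCLike.ofReal_sum, hsum1, RCLike.ofReal_one, one_smul]⟩
      have hC := h.2 C hCc hxC
      have hne : ((fun y => ‖x - y‖) '' C).Nonempty := ⟨_, ⟨x, hxC, rfl⟩⟩
      obtain ⟨_, ⟨w, ⟨z, hz, rfl⟩, rfl⟩, hlt⟩ := exists_lt_of_lt_csSup hne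
        (show (2 - θ' : ℝ) < _ by rw [hC]; linarith)
      exact ⟨z, hz, hlt⟩) F ε hε θ hθ
    have := le_csSup hbdd ⟨y, ⟨hy1, hF y hyF⟩, rfl⟩
    simp only at this
    linarith

end Pool.Agent.Results.MP_c89e4d_an.CcsDeltaSuperDelta
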